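import Pool.Agent.E8helper4.FV.Stm2

/-!
# FV, second round: K1, facts on the kernels `kp m A Y`
-/

set_option autoImplicit false

open Complex MeasureTheory Metric Set Filter Topology ComplexConjugate

namespace Pool.Agent.E8helper8.FV

open Pool.Agent.E8helper4.FV

/-- the integrand -/
noncomputable def gg (m : ℤ) (A Y : ℂ) (τ : ℝ) : ℂ :=
  exp (exp ((τ : ℂ) * I) * A + exp (-((τ : ℂ) * I)) * Y - (m : ℂ) * (τ : ℂ) * I)

theorem kp_eq (m : ℤ) (A Y : ℂ) :
    kp m A Y = 1 / (2 * Real.pi) * ∫ τ in (0 : ℝ)..(2 * Real.pi), gg m A Y τ := rfl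

theorem gg_cont (m : ℤ) : Continuous fun p : (ℂ × ℂ) × ℝ => gg m p.1.1 p.1.2 p.2 := by
  unfold gg
  fun_prop

theorem gg_cont_t (m : ℤ) (A Y : ℂ) : Continuous (gg m A Y) := by
  unfold gg
  fun_prop

theorem norm_e (τ : ℝ) : ‖exp ((τ : ℂ) * I)‖ = 1 := norm_exp_ofReal_mul_I τ

theorem norm_e' (τ : ℝ) : ‖exp (-((τ : ℂ) * I))‖ = 1 := by
  have := norm_exp_ofReal_mul_I (-τ)
  rwa [ofReal_neg, neg_mul] at this

theorem norm_gg (m : ℤ) (A Y : ℂ) (τ : ℝ) : ‖gg m A Y τ‖ ≤ Real.exp (‖A‖ + ‖Y‖) := by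
  unfold gg
  rw [norm_exp]
  apply Real.exp_le_exp.2
  have h1 : ((m : ℂ) * (τ : ℂ) * I).re = 0 := by
    rw [mul_assoc, ← ofReal_intCast, re_ofReal_mul]
    simp
  rw [sub_re, add_re, h1, sub_zero]
  have h2 : (exp ((τ : ℂ) * I) * A).re ≤ ‖A‖ := by
    calc _ ≤ ‖exp ((τ : ℂ) * I) * A‖ := re_le_norm _
      _ = ‖A‖ := by rw [norm_mul, norm_e, one_mul]
  have h3 : (exp (-((τ : ℂ) * I)) * Y).re ≤ ‖Y‖ := by
    calc _ ≤ ‖exp (-((τ : ℂ) * I)) * Y‖ := re_le_norm _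
      _ = ‖Y‖ := by rw [norm_mul, norm_e', one_mul]
  linarith

theorem gg_mul (m : ℤ) (A Y : ℂ) (τ : ℝ) : exp ((τ : ℂ) * I) * gg m A Y τ = gg (m - 1) A Y τ := by
  unfold gg
  rw [← exp_add]
  congr 1
  push_cast
  ring

theorem gg_mul' (m : ℤ) (A Y : ℂ) (τ : ℝ) :
    exp (-((τ : ℂ) * I)) * gg m A Y τ = gg (m + 1) A Y τ := by
  unfold gg
  rw [← exp_add]
  congr 1
  push_cast
  ring

theorem gg_mulk (m : ℤ) (A Y : ℂ) (τ : ℝ) (k : ℕ) :
    exp (-((τ : ℂ) * I)) ^ k * gg m A Y τ = gg (m + k) A Y τ := by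
  unfold gg
  rw [← exp_nat_mul, ← exp_add]
  congr 1
  push_cast
  ring

theorem gg_per (m : ℤ) (A Y : ℂ) : Function.Periodic (gg m A Y) (2 * Real.pi) := by
  intro τ
  unfold gg
  have e1 : exp (((τ + 2 * Real.pi : ℝ) : ℂ) * I) = exp ((τ : ℂ) * I) := by
    push_cast
    rw [add_mul, exp_add, exp_two_pi_mul_I, mul_one]
  have e2 : exp (-(((τ + 2 * Real.pi : ℝ) : ℂ) * I)) = exp (-((τ : ℂ) * I)) := by
    rw [exp_neg, e1, exp_neg]
  rw [e1, e2, exp_sub, exp_sub]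
  congr 1
  push_cast
  rw [show (m : ℂ) * ((τ : ℂ) + 2 * Real.pi) * I = (m : ℂ) * τ * I + m * (2 * Real.pi * I) by ring,
    exp_add, exp_int_mul_two_pi_mul_I, mul_one]

/-- integral over a period of the reflected function -/
theorem int_neg {f : ℝ → ℂ} (hf : Function.Periodic f (2 * Real.pi)) :
    ∫ τ in (0 : ℝ)..(2 * Real.pi), f (-τ) = ∫ τ in (0 : ℝ)..(2 * Real.pi), f τ := by
  rw [intervalIntegral.integral_comp_neg]
  have := hf.intervalIntegral_add_eq (-(2 * Real.pi)) 0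
  rw [neg_add_cancel, zero_add] at this
  rw [neg_zero, this]

/-- integral over a period of the translated function -/
theorem int_add {f : ℝ → ℂ} (hf : Function.Periodic f (2 * Real.pi)) (c : ℝ) :
    ∫ τ in (0 : ℝ)..(2 * Real.pi), f (τ + c) = ∫ τ in (0 : ℝ)..(2 * Real.pi), f τ := by
  rw [intervalIntegral.integral_comp_add_right]
  have := hf.intervalIntegral_add_eq c 0
  rw [zero_add] at this
  rw [zero_add, add_comm (2 * Real.pi) c, this]

theorem kp_cont (m : ℤ) : Continuous fun p : ℂ × ℂ => kp m p.1 p.2 := by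
  have h : Continuous fun p : ℂ × ℂ => ∫ τ in (0 : ℝ)..(2 * Real.pi), gg m p.1 p.2 τ :=
    intervalIntegral.continuous_parametric_intervalIntegral_of_continuous'
      (f := fun (p : ℂ × ℂ) τ => gg m p.1 p.2 τ) (gg_cont m) 0 (2 * Real.pi)
  exact continuous_const.mul h

theorem gg_derA (m : ℤ) (A Y : ℂ) (τ : ℝ) :
    HasDerivAt (fun A => gg m A Y τ) (gg (m - 1) A Y τ) A := by
  have h : HasDerivAt (fun A : ℂ => exp ((τ : ℂ) * I) * A + exp (-((τ : ℂ) * I)) * Y -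
      (m : ℂ) * (τ : ℂ) * I) (exp ((τ : ℂ) * I)) A := by
    simpa using (((hasDerivAt_id A).const_mul (exp ((τ : ℂ) * I))).add_const
      (exp (-((τ : ℂ) * I)) * Y)).sub_const ((m : ℂ) * (τ : ℂ) * I)
  have h2 := h.cexp
  rw [← gg_mul]
  rw [mul_comm (exp ((τ : ℂ) * I))]
  exact h2

theorem gg_derY (m : ℤ) (A Y : ℂ) (τ : ℝ) :
    HasDerivAt (fun Y => gg m A Y τ) (gg (m + 1) A Y τ) Y := by
  have h : HasDerivAt (fun Y : ℂ => exp ((τ : ℂ) * I) * A + exp (-((τ : ℂ) * I)) * Y -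
      (m : ℂ) * (τ : ℂ) * I) (exp (-((τ : ℂ) * I))) Y := by
    simpa using (((hasDerivAt_id Y).const_mul (exp (-((τ : ℂ) * I)))).const_add
      (exp ((τ : ℂ) * I) * A)).sub_const ((m : ℂ) * (τ : ℂ) * I)
  have h2 := h.cexp
  rw [← gg_mul', mul_comm (exp (-((τ : ℂ) * I)))]
  exact h2

theorem der_int (F F' : ℂ → ℝ → ℂ) (hF : ∀ A τ, HasDerivAt (fun A => F A τ) (F' A τ) A)
    (hc : ∀ A, Continuous (F A)) (hc' : ∀ A, Continuous (F' A)) (A : ℂ) (C : ℝ)
    (hb : ∀ B ∈ ball A 1, ∀ τ, ‖F' B τ‖ ≤ C) :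
    HasDerivAt (fun A => (1 / (2 * Real.pi) : ℂ) * ∫ τ in (0 : ℝ)..(2 * Real.pi), F A τ)
      ((1 / (2 * Real.pi) : ℂ) * ∫ τ in (0 : ℝ)..(2 * Real.pi), F' A τ) A := by
  have h := intervalIntegral.hasDerivAt_integral_of_dominated_loc_of_deriv_le
    (μ := volume) (a := (0 : ℝ)) (b := 2 * Real.pi) (F := F) (F' := F') (x₀ := A)
    (s := ball A 1) (bound := fun _ => C) (ball_mem_nhds A one_pos)
    (Eventually.of_forall fun B => (hc B).aestronglyMeasurable)
    ((hc A).intervalIntegrable _ _) (hc' A).aestronglyMeasurable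
    (Eventually.of_forall fun τ _ B hB => hb B hB τ)
    (continuous_const.intervalIntegrable _ _)
    (Eventually.of_forall fun τ _ B _ => hF B τ)
  exact h.2.const_mul _

theorem kp_derA (m : ℤ) (A Y : ℂ) : HasDerivAt (fun A => kp m A Y) (kp (m - 1) A Y) A := by
  have h := der_int (fun A τ => gg m A Y τ) (fun A τ => gg (m - 1) A Y τ)
    (fun A τ => gg_derA m A Y τ) (fun A => gg_cont_t m A Y) (fun A => gg_cont_t (m - 1) A Y) A
    (Real.exp (‖A‖ + 1 + ‖Y‖)) (fun B hB τ => by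
      refine (norm_gg (m - 1) B Y τ).trans (Real.exp_le_exp.2 ?_)
      have h1 : ‖B - A‖ < 1 := by simpa [dist_eq_norm] using mem_ball.1 hB
      have h2 : ‖B‖ ≤ ‖B - A‖ + ‖A‖ := by
        simpa using norm_add_le (B - A) A
      linarith)
  exact h

theorem kp_derY (m : ℤ) (A Y : ℂ) : HasDerivAt (fun Y => kp m A Y) (kp (m + 1) A Y) Y := by
  have h := der_int (fun Y τ => gg m A Y τ) (fun Y τ => gg (m + 1) A Y τ)
    (fun Y τ => gg_derY m A Y τ) (fun Y => gg_cont_t m A Y) (fun Y => gg_cont_t (m + 1) A Y) Y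
    (Real.exp (‖A‖ + (‖Y‖ + 1))) (fun B hB τ => by
      refine (norm_gg (m + 1) A B τ).trans (Real.exp_le_exp.2 ?_)
      have h1 : ‖B - Y‖ < 1 := by simpa [dist_eq_norm] using mem_ball.1 hB
      have h2 : ‖B‖ ≤ ‖B - Y‖ + ‖Y‖ := by
        simpa using norm_add_le (B - Y) Y
      linarith)
  exact h

theorem norm_c : ‖(1 / (2 * Real.pi) : ℂ)‖ = 1 / (2 * Real.pi) := by
  rw [show (1 / (2 * Real.pi) : ℂ) = ((1 / (2 * Real.pi) : ℝ) : ℂ) by push_cast; rfl, norm_real,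
    Real.norm_of_nonneg (by positivity)]

theorem kp_norm (m : ℤ) (A Y : ℂ) : ‖kp m A Y‖ ≤ Real.exp (‖A‖ + ‖Y‖) := by
  rw [kp_eq, norm_mul, norm_c]
  have h := intervalIntegral.norm_integral_le_of_norm_le_const (a := 0) (b := 2 * Real.pi)
    (f := gg m A Y) (C := Real.exp (‖A‖ + ‖Y‖)) (fun τ _ => norm_gg m A Y τ)
  have hp := Real.pi_pos
  rw [sub_zero, abs_of_pos (by positivity)] at h
  calc 1 / (2 * Real.pi) * ‖∫ τ in (0 : ℝ)..(2 * Real.pi), gg m A Y τ‖
      ≤ 1 / (2 * Real.pi) * (Real.exp (‖A‖ + ‖Y‖) * (2 * Real.pi)) :=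
        mul_le_mul_of_nonneg_left h (by positivity)
    _ = Real.exp (‖A‖ + ‖Y‖) := by field_simp

theorem kp_hasSum (m : ℤ) (A Y Z : ℂ) :
    HasSum (fun k : ℕ => Z ^ k / (k.factorial : ℂ) * kp (m + k) A Y) (kp m A (Y + Z)) := by
  have hE : ∀ x : ℂ, HasSum (fun k : ℕ => x ^ k / (k.factorial : ℂ)) (exp x) := by
    intro x
    have := NormedSpace.expSeries_div_hasSum_exp (𝔸 := ℂ) x
    rwa [← Complex.exp_eq_exp_ℂ] at this
  have h1 : HasSum (fun k : ℕ => ∫ τ in (0 : ℝ)..(2 * Real.pi),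
      Z ^ k / (k.factorial : ℂ) * gg (m + k) A Y τ)
      (∫ τ in (0 : ℝ)..(2 * Real.pi), gg m A (Y + Z) τ) := by
    refine intervalIntegral.hasSum_integral_of_dominated_convergence
      (fun k _ => ‖Z‖ ^ k / (k.factorial : ℝ) * Real.exp (‖A‖ + ‖Y‖))
      (fun k => ((continuous_const.mul (gg_cont_t _ _ _))).aestronglyMeasurable) ?_ ?_ ?_ ?_
    · intro k
      refine Eventually.of_forall fun τ _ => ?_
      rw [norm_mul, norm_div, norm_pow, norm_natCast]
      exact mul_le_mul_of_nonneg_left (norm_gg _ _ _ _) (by positivity)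
    · refine Eventually.of_forall fun τ _ => ?_
      exact (Real.summable_pow_div_factorial ‖Z‖).mul_right _
    · exact continuous_const.intervalIntegrable _ _
    · refine Eventually.of_forall fun τ _ => ?_
      have h2 := (hE (exp (-((τ : ℂ) * I)) * Z)).mul_right (gg m A Y τ)
      have h3 : exp (exp (-((τ : ℂ) * I)) * Z) * gg m A Y τ = gg m A (Y + Z) τ := by
        unfold gg
        rw [← exp_add]
        congr 1
        ring
      have h4 : (fun k : ℕ => (exp (-((τ : ℂ) * I)) * Z) ^ k / (k.factorial : ℂ) * gg m A Y τ) =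
          fun k : ℕ => Z ^ k / (k.factorial : ℂ) * gg (m + k) A Y τ := by
        funext k
        rw [← gg_mulk, mul_pow]
        ring
      rw [h4, h3] at h2
      exact h2
  have h4 := h1.mul_left (1 / (2 * Real.pi) : ℂ)
  have h5 : (fun k : ℕ => Z ^ k / (k.factorial : ℂ) * kp (m + k) A Y) = fun k : ℕ =>
      (1 / (2 * Real.pi) : ℂ) * ∫ τ in (0 : ℝ)..(2 * Real.pi),
        Z ^ k / (k.factorial : ℂ) * gg (m + k) A Y τ := by
    funext k
    rw [kp_eq, intervalIntegral.integral_const_mul]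
    ring
  rw [kp_eq, h5]
  exact h4

theorem kp_symm (m : ℤ) (A Y : ℂ) : kp m A Y = kp (-m) Y A := by
  rw [kp_eq, kp_eq]
  congr 1
  rw [← int_neg (gg_per m A Y)]
  refine intervalIntegral.integral_congr fun τ _ => ?_
  simp only [gg]
  congr 1
  push_cast
  rw [show -(-(τ : ℂ) * I) = (τ : ℂ) * I by ring, show (-(τ : ℂ) * I) = -((τ : ℂ) * I) by ring]
  ring

theorem kp_par (m : ℤ) (A Y : ℂ) : kp m (-A) (-Y) = (-1) ^ m * kp m A Y := by
  rw [kp_eq, kp_eq]
  rw [← int_add (gg_per m A Y) Real.pi]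
  rw [mul_left_comm]
  congr 1
  rw [← intervalIntegral.integral_const_mul]
  refine intervalIntegral.integral_congr fun τ _ => ?_
  simp only [gg]
  have e1 : exp (((τ + Real.pi : ℝ) : ℂ) * I) = -exp ((τ : ℂ) * I) := by
    push_cast
    rw [add_mul, exp_add, exp_pi_mul_I, mul_neg_one]
  have e2 : exp (-(((τ + Real.pi : ℝ) : ℂ) * I)) = -exp (-((τ : ℂ) * I)) := by
    rw [exp_neg, e1, exp_neg, inv_neg]
  have e3 : (-1 : ℂ) ^ m = exp ((m : ℂ) * (Real.pi * I)) := by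
    rw [exp_int_mul, exp_pi_mul_I]
  rw [e1, e2, e3, ← exp_add]
  congr 1
  push_cast
  ring

theorem kp_conj (m : ℤ) (A Y : ℂ) : conj (kp m A Y) = kp m (conj A) (conj Y) := by
  rw [kp_eq, kp_eq, map_mul]
  have h1 : conj (1 / (2 * Real.pi) : ℂ) = 1 / (2 * Real.pi) := by
    rw [show (1 / (2 * Real.pi) : ℂ) = ((1 / (2 * Real.pi) : ℝ) : ℂ) by push_cast; rfl, conj_ofReal]
  rw [h1]
  congr 1
  rw [← int_neg (gg_per m (conj A) (conj Y))]
  have hp := Real.pi_pos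
  have hp2 : (0 : ℝ) ≤ 2 * Real.pi := by positivity
  rw [intervalIntegral.integral_of_le hp2, intervalIntegral.integral_of_le hp2, ← integral_conj]
  refine integral_congr_ae (Eventually.of_forall fun τ => ?_)
  simp only [gg]
  rw [← exp_conj]
  congr 1
  simp only [map_sub, map_add, map_mul, ← exp_conj, map_neg, conj_ofReal, conj_I, ofReal_neg]
  rw [show conj (m : ℂ) = (m : ℂ) from by rw [← ofReal_intCast, conj_ofReal]]
  rw [show (-((τ : ℂ) * -I)) = -(-(τ : ℂ) * I) by ring, show ((τ : ℂ) * -I) = -(τ : ℂ) * I by ring]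
  ring

theorem kp_rec (m : ℤ) (A Y : ℂ) :
    A * kp (m - 1) A Y - Y * kp (m + 1) A Y = m * kp m A Y := by
  have hd : ∀ τ : ℝ, HasDerivAt (gg m A Y)
      (I * (A * gg (m - 1) A Y τ - Y * gg (m + 1) A Y τ - m * gg m A Y τ)) τ := by
    intro τ
    have h1 : HasDerivAt (fun τ : ℝ => (τ : ℂ) * I) (1 * I) τ :=
      (ofRealCLM.hasDerivAt (x := τ)).mul_const I
    have h2 := (h1.cexp).mul_const A
    have h3 : HasDerivAt (fun τ : ℝ => exp (-((τ : ℂ) * I)) * Y)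
        (exp (-((τ : ℂ) * I)) * -(1 * I) * Y) τ := (h1.neg.cexp).mul_const Y
    have h4 := (h1.const_mul (m : ℂ))
    have h5 : HasDerivAt (fun τ : ℝ => exp (exp ((τ : ℂ) * I) * A + exp (-((τ : ℂ) * I)) * Y -
        (m : ℂ) * ((τ : ℂ) * I))) (exp (exp ((τ : ℂ) * I) * A + exp (-((τ : ℂ) * I)) * Y -
        (m : ℂ) * ((τ : ℂ) * I)) * (exp ((τ : ℂ) * I) * (1 * I) * A +
        exp (-((τ : ℂ) * I)) * -(1 * I) * Y - (m : ℂ) * (1 * I))) τ :=
      ((h2.add h3).sub h4).cexp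
    have h6 : gg m A Y = fun τ : ℝ => exp (exp ((τ : ℂ) * I) * A + exp (-((τ : ℂ) * I)) * Y -
        (m : ℂ) * ((τ : ℂ) * I)) := by
      funext τ
      simp only [gg]
      rw [mul_assoc (m : ℂ)]
    rw [← gg_mul, ← gg_mul', h6]
    convert h5 using 1
    ring
  have hc : Continuous fun τ : ℝ =>
      (I * (A * gg (m - 1) A Y τ - Y * gg (m + 1) A Y τ - m * gg m A Y τ)) := by
    unfold gg
    fun_prop
  have h := intervalIntegral.integral_eq_sub_of_hasDerivAt (a := 0) (b := 2 * Real.pi)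
    (fun τ _ => hd τ) (hc.intervalIntegrable _ _)
  have h0 : gg m A Y (2 * Real.pi) = gg m A Y 0 := by
    have := gg_per m A Y 0
    rwa [zero_add] at this
  rw [h0, sub_self, intervalIntegral.integral_const_mul] at h
  have h2 : ∫ τ in (0 : ℝ)..(2 * Real.pi),
      (A * gg (m - 1) A Y τ - Y * gg (m + 1) A Y τ - m * gg m A Y τ) = 0 := by
    rcases mul_eq_zero.1 h with h | h
    · exact absurd h I_ne_zero
    · exact h
  have i1 : ∀ (k : ℤ) (c : ℂ), IntervalIntegrable (fun τ => c * gg k A Y τ) volume 0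
      (2 * Real.pi) := fun k c =>
    (continuous_const.mul (gg_cont_t k A Y)).intervalIntegrable _ _
  rw [intervalIntegral.integral_sub ((i1 _ _).sub (i1 _ _)) (i1 _ _),
    intervalIntegral.integral_sub (i1 _ _) (i1 _ _), intervalIntegral.integral_const_mul,
    intervalIntegral.integral_const_mul, intervalIntegral.integral_const_mul] at h2
  rw [kp_eq, kp_eq, kp_eq]
  linear_combination (1 / (2 * Real.pi) : ℂ) * h2

theorem t_K1 : K1 := fun m =>
  ⟨kp_cont m, kp_derA m, kp_derY m, kp_norm m, kp_hasSum m, kp_symm m, kp_par m, kp_conj m,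
    kp_rec m⟩

end Pool.Agent.E8helper8.FV
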